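import Pool.Agent.Y920.AD.Stm

set_option autoImplicit false

/-!
# AD-CNT (helper542 for helper920, job 11219): counting the points of a separated set covered by boxes
-/

namespace Pool.Agent.Y542.AD

open Pool.Agent.H983R3 Pool.Agent.Y920.AD

theorem t_CNT (h : S_PACK) : S_CNT := by
  classical
  intro d P f e π ε K D hε _ hπ
  obtain ⟨B, hB⟩ := h d P ε (2 * f * D) hε
  refine ⟨2 * (K ^ f * B * 2 ^ (f + 1)), by positivity, fun A hsep hcov x hx t ht => ?_⟩
  have hl := P.l_pos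
  set T : ℕ := ⌈t⌉₊ with hT
  have hTt : t ≤ T := Nat.le_ceil t
  have hTt2 : (T : ℝ) < t + 1 := Nat.ceil_lt_add_one ht
  have hexp : Real.exp t ≤ P.l ^ T := by
    calc Real.exp t ≤ Real.exp T := Real.exp_le_exp.mpr hTt
      _ = (Real.exp 1) ^ T := by rw [← Real.exp_nat_mul]; simp
      _ ≤ P.l ^ T := by
        apply pow_le_pow_left₀ (Real.exp_pos _).le
        have := Real.exp_one_lt_d9
        have := P.nine_le_l
        linarith
  set n0 := P.lev x.h with hn0
  obtain ⟨hx1, hx2⟩ := P.lev_spec x.pos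
  rw [← hn0] at hx1 hx2
  set m : ℤ := n0 - T with hm
  have hum : Real.exp t * x.h ≤ P.u m := by
    calc Real.exp t * x.h ≤ P.l ^ T * P.u n0 :=
          mul_le_mul hexp hx2 x.pos.le (pow_nonneg hl.le _)
      _ = P.u m := by rw [P.u_shift]
  -- one level
  have hstep : ∀ n ∈ Finset.Icc m (m + 2 * T),
      ({y | (y ∈ A ∧ hdist x y ≤ t) ∧ P.lev y.h = n}.Finite ∧
      {y | (y ∈ A ∧ hdist x y ≤ t) ∧ P.lev y.h = n}.ncard ≤ (K * (T + 1)) ^ f * B) := by
    intro n _
    choose Ci hCi1 hCi2 using fun i => hcov x T n i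
    have hun := P.u_pos n
    have h1 := fin_union (Fintype.piFinset Ci)
      (fun c => {y | y ∈ A ∧ P.lev y.h = n ∧ ∀ i, ‖(π i y).x - c i‖ ≤ D * P.u n}) B
      (S := {y | (y ∈ A ∧ hdist x y ≤ t) ∧ P.lev y.h = n})
      (fun c _ => hB _ n (fun y hy z hz hyz => hsep y hy.1 z hz.1 hyz) (fun y hy => hy.2.1) (by
        intro y hy z hz
        refine (hπ y z).trans ?_
        have h2 : ∀ i ∈ (Finset.univ : Finset (Fin f)), ‖(π i y).x - (π i z).x‖ ≤ 2 * (D * P.u n) := by
          intro i _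
          have h3 := norm_sub_le_norm_sub_add_norm_sub (π i y).x (c i) (π i z).x
          have h4 := hy.2.2 i
          have h5 := hz.2.2 i
          rw [norm_sub_rev] at h5
          linarith
        refine (Finset.sum_le_sum h2).trans (le_of_eq ?_)
        rw [Finset.sum_const, Finset.card_univ, Fintype.card_fin, nsmul_eq_mul]
        ring)) (by
        rintro y ⟨⟨hyA, hyt⟩, hyn⟩
        choose c hc1 hc2 using fun i => hCi2 i y hyA (hyt.trans hTt) hyn
        exact ⟨c, Fintype.mem_piFinset.2 hc1, hyA, hyn, hc2⟩)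
    refine ⟨h1.1, h1.2.trans ?_⟩
    apply Nat.mul_le_mul_right
    rw [Fintype.card_piFinset]
    calc ∏ i, (Ci i).card ≤ ∏ _i : Fin f, K * (T + 1) := Finset.prod_le_prod' fun i _ => hCi1 i
      _ = (K * (T + 1)) ^ f := by rw [Finset.prod_const, Finset.card_univ, Fintype.card_fin]
  have hall := fin_union (Finset.Icc m (m + 2 * T))
    (fun n => {y | (y ∈ A ∧ hdist x y ≤ t) ∧ P.lev y.h = n})
    ((K * (T + 1)) ^ f * B)
    (S := {y | y ∈ A ∧ hdist x y ≤ t}) hstep (by
      rintro y ⟨hyL, hyt⟩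
      refine ⟨P.lev y.h, ?_, ⟨hyL, hyt⟩, rfl⟩
      rw [Finset.mem_Icc]
      constructor
      · exact P.le_lev y.pos ((height_le ht hyt).trans hum)
      · have h1 := height_ge ht hyt
        have h2 : P.u (n0 + 1 + T) < y.h := by
          have h3 : P.l ^ T * P.u (n0 + 1 + T) < P.l ^ T * y.h := by
            calc P.l ^ T * P.u (n0 + 1 + T) = P.u (n0 + 1) := by
                  rw [P.u_shift]; congr 1; ring
              _ < x.h := hx1
              _ ≤ Real.exp t * y.h := h1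
              _ ≤ P.l ^ T * y.h := mul_le_mul_of_nonneg_right hexp y.pos.le
          exact lt_of_mul_lt_mul_left h3 (pow_nonneg hl.le _)
        have h4 := P.lev_lt y.pos h2
        omega)
  refine ⟨hall.1, ?_⟩
  have hcard : (Finset.Icc m (m + 2 * T)).card = 2 * T + 1 := by
    rw [Int.card_Icc]; omega
  rw [hcard] at hall
  have h5 : (({y | y ∈ A ∧ hdist x y ≤ t}.ncard : ℕ) : ℝ) ≤
      (((2 * T + 1) * ((K * (T + 1)) ^ f * B) : ℕ) : ℝ) := by exact_mod_cast hall.2
  refine h5.trans ?_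
  push_cast
  have hT0 : (0 : ℝ) ≤ T := Nat.cast_nonneg _
  have h6 : (2 * (T : ℝ) + 1) * (T + 1) ^ f ≤ 2 * (2 * (1 + t)) ^ (f + 1) := by
    have h7 : (T : ℝ) + 1 ≤ 2 * (1 + t) := by linarith
    calc (2 * (T : ℝ) + 1) * (T + 1) ^ f ≤ (2 * (2 * (1 + t))) * (2 * (1 + t)) ^ f := by
          refine mul_le_mul (by linarith) (pow_le_pow_left₀ (by positivity) h7 f) (by positivity) (by positivity)
      _ = 2 * (2 * (1 + t)) ^ (f + 1) := by ring
  have h7 : (0 : ℝ) ≤ (K : ℝ) ^ f * B := by positivity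
  calc (2 * (T : ℝ) + 1) * ((K * (T + 1)) ^ f * B) = ((K : ℝ) ^ f * B) * ((2 * (T : ℝ) + 1) * (T + 1) ^ f) := by
        rw [mul_pow]
        ring
    _ ≤ ((K : ℝ) ^ f * B) * (2 * (2 * (1 + t)) ^ (f + 1)) := mul_le_mul_of_nonneg_left h6 h7
    _ = 2 * (K ^ f * B * 2 ^ (f + 1)) * (1 + t) ^ (f + 1) := by
        rw [mul_pow]
        ring

end Pool.Agent.Y542.AD
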